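import Pool.Agent.Y247.CV.Main

/-!
# MP_c605fa_an: maximal arc length, for all even convex integrands, all derivatives, all symmetric
intervals and all real monic polynomials with complex zeros in the closed unit disc
-/

set_option autoImplicit false

open Polynomial MeasureTheory

namespace Pool.Agent.Results.MP_c605fa_an.AllConvexIntegrands

open Pool.Agent.Y247.CV

/-- Length of the graph of `P` over `[-1,1]`. -/
noncomputable def arcLength (P : ℝ[X]) : ℝ :=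
  ∫ x in (-1 : ℝ)..1, Real.sqrt (1 + (P.derivative.eval x) ^ 2)

/-- the integral of `Φ(P⁽ᵏ⁾) w` over `[-T, T]` -/
noncomputable def I (T : ℝ) (w Φ : ℝ → ℝ) (k : ℕ) (P : ℝ[X]) : ℝ :=
  ∫ x in (-T)..T, Φ ((derivative^[k] P).eval x) * w x

lemma sqrt_strict : StrictConvexOn ℝ Set.univ (fun u : ℝ => Real.sqrt (1 + u ^ 2)) := by
  refine ⟨convex_univ, ?_⟩
  intro u _ v _ huv a b ha hb hab
  simp only [smul_eq_mul]
  have hA : 0 < Real.sqrt (1 + u ^ 2) := Real.sqrt_pos.mpr (by positivity)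
  have hB : 0 < Real.sqrt (1 + v ^ 2) := Real.sqrt_pos.mpr (by positivity)
  have hA2 : Real.sqrt (1 + u ^ 2) ^ 2 = 1 + u ^ 2 := Real.sq_sqrt (by positivity)
  have hB2 : Real.sqrt (1 + v ^ 2) ^ 2 = 1 + v ^ 2 := Real.sq_sqrt (by positivity)
  have hAB : 1 + u * v < Real.sqrt (1 + u ^ 2) * Real.sqrt (1 + v ^ 2) := by
    rw [← Real.sqrt_mul (by positivity)]
    apply Real.lt_sqrt_of_sq_lt
    have : 0 < (u - v) ^ 2 := by
      have := sub_ne_zero.mpr huv
      positivity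
    nlinarith
  apply (Real.sqrt_lt' (by positivity)).mpr
  have h1 : a = 1 - b := by linarith
  subst h1
  have e : ((1 - b) * Real.sqrt (1 + u ^ 2) + b * Real.sqrt (1 + v ^ 2)) ^ 2 =
      (1 - b) ^ 2 * Real.sqrt (1 + u ^ 2) ^ 2 +
        2 * ((1 - b) * b * (Real.sqrt (1 + u ^ 2) * Real.sqrt (1 + v ^ 2))) +
        b ^ 2 * Real.sqrt (1 + v ^ 2) ^ 2 := by ring
  rw [e, hA2, hB2]
  have h2 := mul_lt_mul_of_pos_left hAB (mul_pos ha hb)
  nlinarith

lemma arc_eq (P : ℝ[X]) :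
    arcLength P = I 1 (fun _ => 1) (fun u => Real.sqrt (1 + u ^ 2)) 1 P := by
  unfold arcLength I
  simp

lemma mem_disc {n : ℕ} (x : Fin n → ℝ) (hx : ∀ i, x i ∈ Set.Icc (-1 : ℝ) 1) :
    (∏ i, (X - C (x i)) : ℝ[X]) ∈ DiscPoly n := by
  refine ⟨monic_prod_of_monic _ _ (fun i _ => monic_X_sub_C _), ?_, ?_⟩
  · rw [natDegree_prod_of_monic _ _ (fun i _ => monic_X_sub_C _)]
    simp
  · intro z hz
    rw [map_prod, Finset.prod_eq_zero_iff] at hz
    obtain ⟨i, _, hi⟩ := hz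
    rw [map_sub, aeval_X, aeval_C, sub_eq_zero] at hi
    rw [hi, Complex.coe_algebraMap, Complex.norm_real, Real.norm_eq_abs, abs_le]
    exact hx i

lemma roots_of_eq {n : ℕ} (hn : 0 < n) (x : Fin n → ℝ) (e : ℝ)
    (h : (∏ i, (X - C (x i)) : ℝ[X]) = (X - C e) ^ n) (i : Fin n) : x i = e := by
  have h1 := congrArg (eval (x i)) h
  rw [eval_prod, Finset.prod_eq_zero (Finset.mem_univ i) (by simp)] at h1
  have h2 : (x i - e) ^ n = 0 := by
    rw [h1]; simp
  exact sub_eq_zero.1 ((pow_eq_zero_iff hn.ne').1 h2)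

/-- **Maximal arc length (answer to Q2) in a general form.**
(1) For every `n` the polynomial `(x - 1)^n` has maximal arc length over `[-1,1]` among all
`∏ (x - x_i)`, `x_i ∈ [-1,1]`; for `n ≥ 2` the maximisers are exactly `(x - 1)^n`, `(x + 1)^n`.
(2) More generally let `P` be any real monic polynomial of degree `n` all of whose complex zeros lie
in the closed unit disc, `Φ` any even convex function and `k ≥ 0`. Then
`Φ(P⁽ᵏ⁾(y)) + Φ(P⁽ᵏ⁾(-y)) ≤ Φ(Q⁽ᵏ⁾(y)) + Φ(Q⁽ᵏ⁾(-y))` for all real `y`, with `Q = (x - 1)^n`; hence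
`∫_{-T}^{T} Φ(P⁽ᵏ⁾) w ≤ ∫_{-T}^{T} Φ(Q⁽ᵏ⁾) w` for all `T > 0` and all even integrable weights `w ≥ 0`,
and if `Φ` is strictly convex, `k < n` and `w > 0` on `(-T,T)`, then equality holds if and only if
`P = (x - 1)^n` or `P = (x + 1)^n`. -/
theorem result (n : ℕ) :
    ((∀ x : Fin n → ℝ, (∀ i, x i ∈ Set.Icc (-1 : ℝ) 1) →
        arcLength (∏ i, (X - C (x i))) ≤ arcLength ((X - C 1) ^ n)) ∧
      (2 ≤ n → ∀ x : Fin n → ℝ, (∀ i, x i ∈ Set.Icc (-1 : ℝ) 1) →
        (arcLength (∏ i, (X - C (x i))) = arcLength ((X - C 1) ^ n) ↔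
          (∀ i, x i = 1) ∨ (∀ i, x i = -1)))) ∧
    (∀ P : ℝ[X], P.Monic → P.natDegree = n → (∀ z : ℂ, aeval z P = 0 → ‖z‖ ≤ 1) →
      ∀ Φ : ℝ → ℝ, (∀ u, Φ (-u) = Φ u) → ConvexOn ℝ Set.univ Φ → ∀ k : ℕ,
        (∀ y : ℝ, Φ ((derivative^[k] P).eval y) + Φ ((derivative^[k] P).eval (-y)) ≤
          Φ ((derivative^[k] ((X - C (1 : ℝ)) ^ n)).eval y) +
            Φ ((derivative^[k] ((X - C (1 : ℝ)) ^ n)).eval (-y))) ∧
        (∀ (T : ℝ) (w : ℝ → ℝ), 0 < T → IntervalIntegrable w volume (-T) T →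
          (∀ x, w (-x) = w x) → (∀ x ∈ Set.Ioo (-T) T, 0 ≤ w x) →
          I T w Φ k P ≤ I T w Φ k ((X - C 1) ^ n)) ∧
        (StrictConvexOn ℝ Set.univ Φ → k < n →
          ∀ (T : ℝ) (w : ℝ → ℝ), 0 < T → IntervalIntegrable w volume (-T) T →
          (∀ x, w (-x) = w x) → (∀ x ∈ Set.Ioo (-T) T, 0 < w x) →
          (I T w Φ k P = I T w Φ k ((X - C 1) ^ n) ↔
            P = (X - C 1) ^ n ∨ P = (X + C 1) ^ n))) := by
  have he : ∀ u : ℝ, (fun u : ℝ => Real.sqrt (1 + u ^ 2)) (-u) =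
      (fun u : ℝ => Real.sqrt (1 + u ^ 2)) u := by
    intro u
    simp
  have hw : IntervalIntegrable (fun _ : ℝ => (1 : ℝ)) volume (-1) 1 := by simp
  refine ⟨⟨?_, ?_⟩, ?_⟩
  · intro x hx
    rw [arc_eq, arc_eq]
    exact int_le he sqrt_strict.convexOn (mem_disc x hx) 1 zero_le_one hw (fun _ => rfl)
      (fun _ _ => zero_le_one)
  · intro hn x hx
    rw [arc_eq, arc_eq]
    have h1 := int_eq he sqrt_strict (mem_disc x hx) (show 1 < n by omega) one_pos hw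
      (fun _ => rfl) (fun _ _ => one_pos)
    refine h1.trans ⟨?_, ?_⟩
    · rintro (h | h)
      · left
        exact roots_of_eq (by omega) x 1 h
      · right
        have h4 : (X + C (1 : ℝ)) = X - C (-1) := by rw [C_neg]; ring
        rw [h4] at h
        exact roots_of_eq (by omega) x (-1) h
    · rintro (h | h)
      · left
        simp [h]
      · right
        simp [h]
  · intro P h1 h2 h3 Φ hΦ hc k
    have hP : P ∈ DiscPoly n := ⟨h1, h2, h3⟩
    refine ⟨fun y => pair_le hΦ hc hP k y, ?_, ?_⟩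
    · intro T w hT hw hwe hw0
      exact int_le hΦ hc hP k hT.le hw hwe hw0
    · intro hs hk T w hT hw hwe hw0
      exact int_eq hΦ hs hP hk hT hw hwe hw0

end Pool.Agent.Results.MP_c605fa_an.AllConvexIntegrands
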